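import Mathlib

/-!
# Project HC, piece LOG: partial integration against an increasing logarithmic weight
-/

set_option autoImplicit false

namespace Pool.Agent.T9h41.HC

open Complex MeasureTheory Set intervalIntegral

theorem log_core {Z : ℝ → ℂ} (hZ : Continuous Z) {a T l c h M : ℝ} (hT : 3 ≤ T) (ha1 : 1 ≤ a)
    (haT : a ≤ T) (hc : 0 ≤ c) (hcT : c ≤ T) (hh : 1 ≤ h) (hhT : h ≤ T)
    (hM : ∀ x, a ≤ x → x ≤ T → ‖∫ t in a..x, Z t * cexp (I * ((t * l : ℝ) : ℂ))‖ ≤ M) :
    ‖∫ t in a..T, Z t * (((Real.log (max (t + c) 1 / (2 * Real.pi * h)) +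
      2 * Real.eulerMascheroniConstant : ℝ) : ℂ) * cexp (I * (((t + c) * l : ℝ) : ℂ)))‖ ≤
      6 * M * Real.log T := by
  have hM0 : 0 ≤ M := (norm_nonneg _).trans (hM a le_rfl haT)
  set g : ℝ → ℂ := fun t => Z t * cexp (I * ((t * l : ℝ) : ℂ)) with hg
  have hgc : Continuous g := by
    rw [hg]
    fun_prop
  set F : ℝ → ℂ := fun x => ∫ t in a..x, g t with hF
  have hFd : ∀ x, HasDerivAt F (g x) x := fun x => (hgc.integral_hasStrictDerivAt a x).hasDerivAt
  have hFa : F a = 0 := by rw [hF]; exact integral_same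
  have h2 : (0 : ℝ) < 2 * Real.pi * h := by positivity
  set W : ℝ → ℝ := fun t => Real.log ((t + c) / (2 * Real.pi * h)) +
    2 * Real.eulerMascheroniConstant with hW
  have hpos : ∀ t ∈ Icc a T, 1 ≤ t + c := fun t ht => by linarith [ht.1]
  have huIcc : uIcc a T = Icc a T := uIcc_of_le haT
  have hWd : ∀ t ∈ uIcc a T, HasDerivAt (fun t => ((W t : ℝ) : ℂ)) (((t + c)⁻¹ : ℝ) : ℂ) t := by
    intro t ht
    rw [huIcc] at ht
    have ht1 := hpos t ht
    have h3 : HasDerivAt (fun t : ℝ => (t + c) / (2 * Real.pi * h)) (1 / (2 * Real.pi * h)) t :=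
      ((hasDerivAt_id t).add_const c).div_const _
    have h4 := (h3.log (by positivity)).add_const (2 * Real.eulerMascheroniConstant)
    have h5 : 1 / (2 * Real.pi * h) / ((t + c) / (2 * Real.pi * h)) = (t + c)⁻¹ := by
      have : t + c ≠ 0 := by linarith
      field_simp
    rw [h5] at h4
    exact h4.ofReal_comp
  have hinv : ContinuousOn (fun t : ℝ => (t + c)⁻¹) (uIcc a T) := by
    rw [huIcc]
    refine ContinuousOn.inv₀ (by fun_prop) fun t ht => ?_
    have := hpos t ht
    linarith
  have hui : IntervalIntegrable (fun t : ℝ => (((t + c)⁻¹ : ℝ) : ℂ)) volume a T :=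
    (Complex.continuous_ofReal.comp_continuousOn hinv).intervalIntegrable
  have hgi : IntervalIntegrable g volume a T := hgc.intervalIntegrable a T
  have hparts := integral_mul_deriv_eq_deriv_mul hWd (fun t _ => hFd t) hui hgi
  rw [hFa, mul_zero, sub_zero] at hparts
  -- the integrand
  have hint : ∫ t in a..T, Z t * (((Real.log (max (t + c) 1 / (2 * Real.pi * h)) +
      2 * Real.eulerMascheroniConstant : ℝ) : ℂ) * cexp (I * (((t + c) * l : ℝ) : ℂ))) =
      cexp (I * ((c * l : ℝ) : ℂ)) * ∫ t in a..T, ((W t : ℝ) : ℂ) * g t := by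
    rw [← intervalIntegral.integral_const_mul]
    refine integral_congr fun t ht => ?_
    rw [huIcc] at ht
    have ht1 := hpos t ht
    simp only [hW, hg]
    rw [max_eq_left ht1]
    have : cexp (I * (((t + c) * l : ℝ) : ℂ)) =
        cexp (I * ((c * l : ℝ) : ℂ)) * cexp (I * ((t * l : ℝ) : ℂ)) := by
      rw [← Complex.exp_add]
      congr 1
      push_cast
      ring
    rw [this]
    ring
  have hexp : ‖cexp (I * ((c * l : ℝ) : ℂ))‖ = 1 := by
    rw [mul_comm, Complex.norm_exp_ofReal_mul_I]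
  rw [hint, norm_mul, hexp, one_mul, hparts]
  -- logarithms
  have hlT : 1 ≤ Real.log T := by
    have h3 : Real.exp 1 ≤ T := by
      have := Real.exp_one_lt_d9
      linarith
    have := Real.log_le_log (Real.exp_pos 1) h3
    rwa [Real.log_exp] at this
  have hγ1 := Real.eulerMascheroniConstant_lt_two_thirds
  have hγ2 := Real.one_half_lt_eulerMascheroniConstant
  have hTc : Real.log (T + c) ≤ 2 * Real.log T := by
    have h3 : T + c ≤ T ^ 2 := by nlinarith
    have := Real.log_le_log (by linarith) h3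
    rwa [Real.log_pow] at this
  have hTc0 : 0 ≤ Real.log (T + c) := Real.log_nonneg (by linarith)
  have hac0 : 0 ≤ Real.log (a + c) := Real.log_nonneg (by linarith)
  have hph : Real.log (2 * Real.pi * h) ≤ 3 * Real.log T := by
    have h3 : 2 * Real.pi * h ≤ T ^ 3 := by
      have hpi := Real.pi_lt_d2
      have hpi0 := Real.pi_pos
      calc 2 * Real.pi * h ≤ 9 * T := by nlinarith
        _ ≤ T ^ 2 * T := by nlinarith
        _ = T ^ 3 := by ring
    have := Real.log_le_log h2 h3
    rwa [Real.log_pow] at this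
  have hph0 : 0 ≤ Real.log (2 * Real.pi * h) := by
    refine Real.log_nonneg ?_
    have := Real.pi_gt_three
    nlinarith
  have hWT : ‖((W T : ℝ) : ℂ)‖ ≤ 4 * Real.log T := by
    rw [Complex.norm_real, Real.norm_eq_abs, abs_le]
    have h3 : W T = Real.log (T + c) - Real.log (2 * Real.pi * h) +
        2 * Real.eulerMascheroniConstant := by
      simp only [hW]
      rw [Real.log_div (by linarith) h2.ne']
    rw [h3]
    constructor <;> linarith
  have hrest : ‖∫ t in a..T, (((t + c)⁻¹ : ℝ) : ℂ) * F t‖ ≤ M * (2 * Real.log T) := by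
    have hmi : IntervalIntegrable (fun t : ℝ => (t + c)⁻¹ * M) volume a T :=
      (hinv.mul continuousOn_const).intervalIntegrable
    have h3 : ‖∫ t in a..T, (((t + c)⁻¹ : ℝ) : ℂ) * F t‖ ≤ ∫ t in a..T, (t + c)⁻¹ * M := by
      refine norm_integral_le_of_norm_le haT ?_ hmi
      refine Filter.Eventually.of_forall fun t ht => ?_
      have ht' : t ∈ Icc a T := ⟨ht.1.le, ht.2⟩
      have ht1 := hpos t ht'
      rw [norm_mul, Complex.norm_real, Real.norm_eq_abs, abs_of_pos (by positivity)]
      exact mul_le_mul_of_nonneg_left (hM t ht'.1 ht'.2) (by positivity)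
    refine h3.trans ?_
    have h4 : ∫ t in a..T, (t + c)⁻¹ * M = Real.log (T + c) * M - Real.log (a + c) * M := by
      refine integral_eq_sub_of_hasDerivAt (f := fun t => Real.log (t + c) * M)
        (fun t ht => ?_) hmi
      rw [huIcc] at ht
      have ht1 := hpos t ht
      have h6 : HasDerivAt (fun t : ℝ => t + c) 1 t := (hasDerivAt_id t).add_const c
      have h5 := (h6.log (by linarith)).mul_const M
      rwa [one_div] at h5
    rw [h4]
    nlinarith
  calc ‖((W T : ℝ) : ℂ) * F T - ∫ t in a..T, (((t + c)⁻¹ : ℝ) : ℂ) * F t‖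
      ≤ ‖((W T : ℝ) : ℂ) * F T‖ + ‖∫ t in a..T, (((t + c)⁻¹ : ℝ) : ℂ) * F t‖ := norm_sub_le _ _
    _ ≤ 4 * Real.log T * M + M * (2 * Real.log T) := by
        refine add_le_add ?_ hrest
        rw [norm_mul]
        have := hM T haT le_rfl
        gcongr
    _ = 6 * M * Real.log T := by ring

end Pool.Agent.T9h41.HC
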