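import Pool.Agent.T9h29.HC.Spec
import Pool.Agent.T9h41.HC.LogA

/-!
# Project HC, piece LOG
-/

set_option autoImplicit false

namespace Pool.Agent.T9h41.HC

open Complex Filter Topology MeasureTheory Set
open Pool.Agent.R304.SG (Z)
open Pool.Agent.T9h29.HC

theorem log : S_TM → S_LOG := by
  rintro ⟨C, hC, h⟩
  refine ⟨6 * C, by positivity, ?_⟩
  intro a T l c k hT ha haT hl hc hcT hk hkT
  have ha1 : 1 ≤ a := by
    refine le_trans ?_ ha
    exact Real.one_le_rpow (by linarith) (by norm_num)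
  have h1 := log_core Pool.Agent.R304.SG.Z_cont hT ha1 haT hc hcT hk hkT
    (M := C * T ^ (25 / 32 : ℝ)) (l := l) fun x hax hxT => h a x T l hT ha hax hxT hl
  refine h1.trans (le_of_eq ?_)
  ring

end Pool.Agent.T9h41.HC
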