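import Pool.Agent.T9h29.HC.Spec3
import Pool.Agent.T9h41.HC.Blk

set_option autoImplicit false

/-! Project HC, third round, piece BLK3: one dyadic block. -/

namespace Pool.Agent.T9h41.HC

open Complex Filter Topology MeasureTheory Set
open Pool.Agent.R304.SG (Z phase phase_cont Z_cont Z_re)
open Pool.Agent.Y969.GP (ff ht lam FR cr)
open Pool.Agent.N879.PZ (ee HH Wb)
open Pool.Agent.T9h29.HC

noncomputable section

theorem blk3 (hK : S_KH3) (hLo : S_LOW) : S_BLK3 := by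
  obtain ⟨CK, AK, hCK, hK⟩ := hK
  obtain ⟨CL, AL, hCL, hLo⟩ := hLo
  obtain ⟨C1, hC1, h1⟩ := Pool.Agent.N879.PZ.t_AFX
  obtain ⟨C2, A2, hC2, h2⟩ := m2
  refine ⟨3 * (3 * CK * C2 + CL + C1 ^ 2 * C2), AK + AL + A2, by positivity, ?_⟩
  intro T U hT hU1 hUT
  have hT0 : (0 : ℝ) < T := by linarith
  have hT1 : (1 : ℝ) ≤ T := by linarith
  have hU0 : 0 ≤ U := by linarith
  have hL1 : 1 ≤ Real.log T := Pool.Agent.N879.PZ.Keraux.log_ge hT
  set L := Real.log T with hL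
  have hL0 : 0 ≤ L := by linarith
  obtain ⟨a, ha⟩ : ∃ a : ℝ, a = T / 2 := ⟨_, rfl⟩
  rw [← ha]
  have ha1 : 1 ≤ a := by rw [ha]; linarith
  have ha0 : 0 < a := by linarith
  have haT : a ≤ T := by rw [ha]; linarith
  obtain ⟨N, hN⟩ : ∃ N : ℕ, N = ⌊U⌋₊ := ⟨_, rfl⟩
  have hN1 : 1 ≤ N := by rw [hN]; exact Nat.floor_pos.2 hU1
  have hN1r : (1 : ℝ) ≤ N := by exact_mod_cast hN1
  have hNU : (N : ℝ) ≤ U := by rw [hN]; exact Nat.floor_le hU0
  have hUN : U < N + 1 := by rw [hN]; exact Nat.lt_floor_add_one U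
  have hUN2 : U / N + 1 ≤ 3 := by
    have : U / N ≤ 2 := by
      rw [div_le_iff₀ (by linarith)]
      linarith
    linarith
  obtain ⟨X, hX⟩ : ∃ X : ℕ, X = ⌈(2 * T) ^ 2⌉₊ := ⟨_, rfl⟩
  have hX1 : (2 * T) ^ 2 ≤ X := by rw [hX]; exact Nat.le_ceil _
  have hX2 : (X : ℝ) ≤ 5 * T ^ 2 := by
    have := Nat.ceil_lt_add_one (a := (2 * T) ^ 2) (by positivity)
    rw [hX]
    nlinarith
  have hPar : Par2 T U a N := ⟨hT, hU1, hUT, by rw [ha], haT, hN1, hNU.trans hUT, hNU⟩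
  have hZc := Z_cont
  have hWb : Wb a T Z := by
    refine ⟨hZc.measurable, ?_⟩
    obtain ⟨M, hM'⟩ := isCompact_Icc.exists_bound_of_continuousOn (s := Icc a T) hZc.continuousOn
    exact ⟨M, hM'⟩
  have hffc : Continuous fun u : ℝ => ((ff u : ℝ) : ℂ) := Pool.Agent.N879.PZ.Keraux.ff_cont
  have hHc := Pool.Agent.N879.PZ.Keraux.HH_cont N X
  have hLc := LO_cont N X
  have hM2 : ∫ t in a..T, ‖Z t‖ ^ 2 ≤ C2 * T * L ^ A2 := by rw [ha]; exact h2 T hT
  have hM20 : 0 ≤ ∫ t in a..T, ‖Z t‖ ^ 2 :=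
    intervalIntegral.integral_nonneg haT fun t _ => by positivity
  -- the three parts
  have hH := hK T U a N X Z hPar hX1 hX2 hWb
  have hl := hLo T U a N X hPar hX1 hX2
  have hshift : ∀ c ∈ Icc (0 : ℝ) U, ∀ t ∈ Icc a T, t + c ∈ Ioi (0 : ℝ) := by
    intro c hc t ht
    simp only [mem_Ioi]
    linarith [hc.1, ht.1]
  obtain ⟨K0, hK0⟩ : ∃ K0 : ℝ, K0 = C1 * a ^ (-(1 / 4) : ℝ) := ⟨_, rfl⟩
  have hK00 : 0 ≤ K0 := by rw [hK0]; positivity
  have herr : ∀ c ∈ Icc (0 : ℝ) U, ∀ t ∈ Icc a T,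
      ‖((ff (t + c) : ℝ) : ℂ) - HH N X (t + c) - LO N X (t + c)‖ ≤ K0 := by
    intro c hc t ht
    have hu1 : 1 ≤ t + c := by linarith [hc.1, ht.1]
    have hu2 : (t + c) ^ 2 ≤ X := by
      refine le_trans ?_ hX1
      apply pow_le_pow_left₀ (by linarith)
      linarith [hc.2, ht.2]
    have h3 := h1 (t + c) X hu1 hu2
    rw [sub_sub, HL]
    refine h3.trans ?_
    rw [hK0]
    refine mul_le_mul_of_nonneg_left ?_ hC1.le
    exact Real.rpow_le_rpow_of_nonpos ha0 (by linarith [hc.1, ht.1]) (by norm_num)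
  obtain ⟨E0, hE0⟩ : ∃ E0 : ℝ, E0 = C1 ^ 2 * C2 * (T ^ (3 / 2 : ℝ) * L ^ A2) := ⟨_, rfl⟩
  have hK0sq : K0 ^ 2 * (T - a) ≤ C1 ^ 2 * T ^ (1 / 2 : ℝ) := by
    have e1 : (a ^ (-(1 / 4) : ℝ)) ^ 2 * a = a ^ (1 / 2 : ℝ) := by
      rw [← Real.rpow_natCast, ← Real.rpow_mul ha0.le]
      conv_lhs =>
        rw [show (a : ℝ) ^ (-(1 / 4) * ((2 : ℕ) : ℝ)) * a = a ^ (-(1 / 4) * ((2 : ℕ) : ℝ)) * a ^ (1 : ℝ) by
          rw [Real.rpow_one]]
      rw [← Real.rpow_add ha0]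
      norm_num
    have e2 : T - a = a := by rw [ha]; ring
    rw [e2, hK0, mul_pow, mul_assoc, e1]
    gcongr
  have hZn : IntervalIntegrable (fun t => ‖Z t‖) volume a T := hZc.norm.intervalIntegrable _ _
  have hE : ∀ c ∈ Icc (0 : ℝ) U,
      ‖∫ t in a..T, Z t * (((ff (t + c) : ℝ) : ℂ) - HH N X (t + c) - LO N X (t + c))‖ ^ 2 ≤ E0 := by
    intro c hc
    have hcH : ContinuousOn (fun t => HH N X (t + c)) (Icc a T) :=
      hHc.comp (by fun_prop) fun t ht => hshift c hc t ht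
    have hcL : ContinuousOn (fun t => LO N X (t + c)) (Icc a T) :=
      hLc.comp (by fun_prop) fun t ht => hshift c hc t ht
    have hcF : ContinuousOn (fun t => ((ff (t + c) : ℝ) : ℂ)) (Icc a T) :=
      (hffc.comp (continuous_id.add continuous_const)).continuousOn
    have hG : IntervalIntegrable
        (fun t => Z t * (((ff (t + c) : ℝ) : ℂ) - HH N X (t + c) - LO N X (t + c))) volume a T :=
      (hZc.continuousOn.mul ((hcF.sub hcH).sub hcL)).intervalIntegrable_of_Icc haT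
    have b1 : ‖∫ t in a..T, Z t * (((ff (t + c) : ℝ) : ℂ) - HH N X (t + c) - LO N X (t + c))‖ ≤
        K0 * ∫ t in a..T, ‖Z t‖ := by
      refine (intervalIntegral.norm_integral_le_integral_norm haT).trans ?_
      rw [← intervalIntegral.integral_const_mul]
      refine intervalIntegral.integral_mono_on haT hG.norm (hZn.const_mul _) fun t ht => ?_
      rw [norm_mul, mul_comm]
      exact mul_le_mul_of_nonneg_right (herr c hc t ht) (norm_nonneg _)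
    have b2 : (∫ t in a..T, ‖Z t‖) ^ 2 ≤ (T - a) * ∫ t in a..T, ‖Z t‖ ^ 2 :=
      Pool.Agent.N879.PZ.Keraux.cs haT hZn ((hZc.norm.pow 2).intervalIntegrable _ _)
    have hI0 : 0 ≤ ∫ t in a..T, ‖Z t‖ := intervalIntegral.integral_nonneg haT fun t _ => norm_nonneg _
    calc _ ≤ (K0 * ∫ t in a..T, ‖Z t‖) ^ 2 := pow_le_pow_left₀ (norm_nonneg _) b1 2
      _ = K0 ^ 2 * (∫ t in a..T, ‖Z t‖) ^ 2 := by ring
      _ ≤ K0 ^ 2 * ((T - a) * ∫ t in a..T, ‖Z t‖ ^ 2) := by gcongr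
      _ = K0 ^ 2 * (T - a) * ∫ t in a..T, ‖Z t‖ ^ 2 := by ring
      _ ≤ C1 ^ 2 * T ^ (1 / 2 : ℝ) * (C2 * T * L ^ A2) :=
          mul_le_mul hK0sq hM2 hM20 (by positivity)
      _ = E0 := by
          rw [hE0]
          have e3 : T ^ (3 / 2 : ℝ) = T ^ (1 / 2 : ℝ) * T := by
            conv_rhs => rw [show T ^ (1 / 2 : ℝ) * T = T ^ (1 / 2 : ℝ) * T ^ (1 : ℝ) by rw [Real.rpow_one]]
            rw [← Real.rpow_add hT0]
            norm_num
          rw [e3]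
          ring
  have hcHH := Pool.Agent.N879.PZ.Keraux.par_cont (U := U) ha0 haT hWb hHc
  have hcLL := Pool.Agent.N879.PZ.Keraux.par_cont (U := U) ha0 haT hWb hLc
  have iH : IntervalIntegrable (fun c : ℝ => ‖∫ t in a..T, Z t * HH N X (t + c)‖ ^ 2) volume 0 U :=
    (hcHH.norm.pow 2).intervalIntegrable_of_Icc hU0
  have iL : IntervalIntegrable (fun c : ℝ => ‖∫ t in a..T, Z t * LO N X (t + c)‖ ^ 2) volume 0 U :=
    (hcLL.norm.pow 2).intervalIntegrable_of_Icc hU0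
  have cI : Continuous fun c : ℝ => ∫ t in a..T, Z t * Z (t + c) ^ 2 := by
    apply intervalIntegral.continuous_parametric_intervalIntegral_of_continuous'
    have : Continuous fun q : ℝ × ℝ => Z q.2 * Z (q.2 + q.1) ^ 2 :=
      (hZc.comp continuous_snd).mul ((hZc.comp (continuous_snd.add continuous_fst)).pow 2)
    exact this
  have hpt : ∀ c ∈ Icc (0 : ℝ) U, ‖∫ t in a..T, Z t * Z (t + c) ^ 2‖ ^ 2 ≤
      3 * ‖∫ t in a..T, Z t * HH N X (t + c)‖ ^ 2 + 3 * ‖∫ t in a..T, Z t * LO N X (t + c)‖ ^ 2 +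
        3 * E0 := by
    intro c hc
    have hcH : ContinuousOn (fun t => HH N X (t + c)) (Icc a T) :=
      hHc.comp (by fun_prop) fun t ht => hshift c hc t ht
    have hcL : ContinuousOn (fun t => LO N X (t + c)) (Icc a T) :=
      hLc.comp (by fun_prop) fun t ht => hshift c hc t ht
    have hcF : ContinuousOn (fun t => ((ff (t + c) : ℝ) : ℂ)) (Icc a T) :=
      (hffc.comp (continuous_id.add continuous_const)).continuousOn
    have j1 : IntervalIntegrable (fun t => Z t * HH N X (t + c)) volume a T :=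
      (hZc.continuousOn.mul hcH).intervalIntegrable_of_Icc haT
    have j2 : IntervalIntegrable (fun t => Z t * LO N X (t + c)) volume a T :=
      (hZc.continuousOn.mul hcL).intervalIntegrable_of_Icc haT
    have j3 : IntervalIntegrable
        (fun t => Z t * (((ff (t + c) : ℝ) : ℂ) - HH N X (t + c) - LO N X (t + c))) volume a T :=
      (hZc.continuousOn.mul ((hcF.sub hcH).sub hcL)).intervalIntegrable_of_Icc haT
    have e : ∫ t in a..T, Z t * Z (t + c) ^ 2 = (∫ t in a..T, Z t * HH N X (t + c)) +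
        ((∫ t in a..T, Z t * LO N X (t + c)) +
          ∫ t in a..T, Z t * (((ff (t + c) : ℝ) : ℂ) - HH N X (t + c) - LO N X (t + c))) := by
      rw [← intervalIntegral.integral_add j2 j3, ← intervalIntegral.integral_add j1 (j2.add j3)]
      refine intervalIntegral.integral_congr fun t _ => ?_
      rw [Z_sq]
      ring
    rw [e]
    have hE' := hE c hc
    set x := ∫ t in a..T, Z t * HH N X (t + c)
    set y := ∫ t in a..T, Z t * LO N X (t + c)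
    set z := ∫ t in a..T, Z t * (((ff (t + c) : ℝ) : ℂ) - HH N X (t + c) - LO N X (t + c))
    have h7 : ‖x + (y + z)‖ ≤ ‖x‖ + (‖y‖ + ‖z‖) :=
      (norm_add_le _ _).trans (add_le_add le_rfl (norm_add_le _ _))
    have h8 : ‖x + (y + z)‖ ^ 2 ≤ (‖x‖ + (‖y‖ + ‖z‖)) ^ 2 := by gcongr
    nlinarith [sq_nonneg (‖x‖ - ‖y‖), sq_nonneg (‖x‖ - ‖z‖), sq_nonneg (‖y‖ - ‖z‖)]
  have hint : ∫ c in (0 : ℝ)..U, ‖∫ t in a..T, Z t * Z (t + c) ^ 2‖ ^ 2 ≤
      3 * (∫ c in (0 : ℝ)..U, ‖∫ t in a..T, Z t * HH N X (t + c)‖ ^ 2) +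
        3 * (∫ c in (0 : ℝ)..U, ‖∫ t in a..T, Z t * LO N X (t + c)‖ ^ 2) + 3 * E0 * U := by
    have k1 := iH.const_mul 3
    have k2 := iL.const_mul 3
    have k3 : IntervalIntegrable (fun _ : ℝ => 3 * E0) volume 0 U := continuous_const.intervalIntegrable _ _
    calc ∫ c in (0 : ℝ)..U, ‖∫ t in a..T, Z t * Z (t + c) ^ 2‖ ^ 2
        ≤ ∫ c in (0 : ℝ)..U, (3 * ‖∫ t in a..T, Z t * HH N X (t + c)‖ ^ 2 +
          3 * ‖∫ t in a..T, Z t * LO N X (t + c)‖ ^ 2 + 3 * E0) :=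
          intervalIntegral.integral_mono_on hU0 ((cI.norm.pow 2).intervalIntegrable _ _)
            ((k1.add k2).add k3) hpt
      _ = _ := by
          rw [intervalIntegral.integral_add (k1.add k2) k3, intervalIntegral.integral_add k1 k2,
            intervalIntegral.integral_const_mul, intervalIntegral.integral_const_mul,
            intervalIntegral.integral_const, smul_eq_mul, sub_zero]
          ring
  refine hint.trans ?_
  set P := L ^ (AK + AL + A2) with hP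
  have q1 : L ^ (AK + A2) ≤ P := pow_le_pow_right₀ hL1 (by omega)
  have q2 : L ^ AL ≤ P := pow_le_pow_right₀ hL1 (by omega)
  have q3 : L ^ A2 ≤ P := pow_le_pow_right₀ hL1 (by omega)
  have hP0 : 0 ≤ P := by positivity
  have hU3 : 0 ≤ U ^ 2 := by positivity
  have hT32 : 0 ≤ T ^ (3 / 2 : ℝ) := by positivity
  have r1 : ∫ c in (0 : ℝ)..U, ‖∫ t in a..T, Z t * HH N X (t + c)‖ ^ 2 ≤
      3 * CK * C2 * P * (T ^ 2 + U ^ 2 * T) := by
    refine hH.trans ?_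
    calc CK * L ^ AK * (T * (U / N + 1) + U ^ 2) * ∫ t in a..T, ‖Z t‖ ^ 2
        ≤ CK * L ^ AK * (T * 3 + U ^ 2) * (C2 * T * L ^ A2) := by gcongr
      _ = CK * C2 * (L ^ (AK + A2)) * (3 * T ^ 2 + U ^ 2 * T) := by rw [pow_add]; ring
      _ ≤ CK * C2 * P * (3 * T ^ 2 + U ^ 2 * T) := by gcongr
      _ ≤ CK * C2 * P * (3 * (T ^ 2 + U ^ 2 * T)) := by
          have : 3 * T ^ 2 + U ^ 2 * T ≤ 3 * (T ^ 2 + U ^ 2 * T) := by nlinarith [mul_nonneg hU3 hT0.le]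
          gcongr
      _ = _ := by ring
  have r2 : ∫ c in (0 : ℝ)..U, ‖∫ t in a..T, Z t * LO N X (t + c)‖ ^ 2 ≤
      CL * P * (U * T ^ (3 / 2 : ℝ) + U ^ 2 * T) := by
    refine hl.trans ?_
    calc CL * L ^ AL * (U * T ^ (3 / 2 : ℝ) + U ^ 3)
        ≤ CL * P * (U * T ^ (3 / 2 : ℝ) + U ^ 2 * T) := by
          have : U ^ 3 ≤ U ^ 2 * T := by
            rw [pow_succ]
            exact mul_le_mul_of_nonneg_left hUT hU3
          gcongr
      _ = _ := by ring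
  have r3 : E0 * U ≤ C1 ^ 2 * C2 * P * (U * T ^ (3 / 2 : ℝ)) := by
    rw [hE0]
    calc C1 ^ 2 * C2 * (T ^ (3 / 2 : ℝ) * L ^ A2) * U
        ≤ C1 ^ 2 * C2 * (T ^ (3 / 2 : ℝ) * P) * U := by gcongr
      _ = _ := by ring
  have g1 : 0 ≤ CK * C2 * P := by positivity
  have g2 : 0 ≤ CL * P := by positivity
  have g3 : 0 ≤ C1 ^ 2 * C2 * P := by positivity
  have w1 : 0 ≤ T ^ 2 := by positivity
  have w2 : 0 ≤ U * T ^ (3 / 2 : ℝ) := by positivity
  have w3 : 0 ≤ U ^ 2 * T := by positivity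
  have f1 : 3 * CK * C2 * P * (T ^ 2 + U ^ 2 * T) ≤
      3 * CK * C2 * P * (T ^ 2 + U * T ^ (3 / 2 : ℝ) + U ^ 2 * T) := by
    have : T ^ 2 + U ^ 2 * T ≤ T ^ 2 + U * T ^ (3 / 2 : ℝ) + U ^ 2 * T := by linarith
    have g1' : 0 ≤ 3 * CK * C2 * P := by positivity
    exact mul_le_mul_of_nonneg_left this g1'
  have f2 : CL * P * (U * T ^ (3 / 2 : ℝ) + U ^ 2 * T) ≤
      CL * P * (T ^ 2 + U * T ^ (3 / 2 : ℝ) + U ^ 2 * T) :=
    mul_le_mul_of_nonneg_left (by linarith) g2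
  have f3 : C1 ^ 2 * C2 * P * (U * T ^ (3 / 2 : ℝ)) ≤
      C1 ^ 2 * C2 * P * (T ^ 2 + U * T ^ (3 / 2 : ℝ) + U ^ 2 * T) :=
    mul_le_mul_of_nonneg_left (by linarith) g3
  have s1 := r1.trans f1
  have s2 := r2.trans f2
  have s3 := r3.trans f3
  have e10 : 3 * (3 * CK * C2 + CL + C1 ^ 2 * C2) * P * (T ^ 2 + U * T ^ (3 / 2 : ℝ) + U ^ 2 * T) =
      3 * (3 * CK * C2 * P * (T ^ 2 + U * T ^ (3 / 2 : ℝ) + U ^ 2 * T)) +
      3 * (CL * P * (T ^ 2 + U * T ^ (3 / 2 : ℝ) + U ^ 2 * T)) +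
      3 * (C1 ^ 2 * C2 * P * (T ^ 2 + U * T ^ (3 / 2 : ℝ) + U ^ 2 * T)) := by ring
  rw [e10]
  linarith

end

end Pool.Agent.T9h41.HC
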